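import Mathlib
import Pool.Agent.H920Z.TakMain

set_option autoImplicit false

open Pool.Agent.H920Z.Tak in
/-- `F_4 (x) = ∑_{k ≥ 0} 4^{1-k} min(‖4^k x‖, 1/4)` (the supremum is attained), over the members
of the class `F_4` that are bounded above on `[0,1]`. -/
theorem Pool.Agent.Results.MP_56f843_an.FFour.result (x : ℝ) (hx : x ∈ Set.Icc (0 : ℝ) 1) :
    IsGreatest {y : ℝ | ∃ f : ℝ → ℝ, InClass 3 f ∧ BddAbove (f '' Set.Icc 0 1) ∧ f x = y}
      (∑' k : ℕ, (4 : ℝ) / 4 ^ k * min (nearInt (4 ^ k * x)) (1 / 4)) :=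
  main x hx
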